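import Pool.Agent.R424.MP.Pink

/-!
# MP_28d749_ag: Pink's conjecture for almost all members of families of subvarieties of the powers of
elliptic schemes with several integral parameters

**The abelian scheme.** The base is the space of all `s = (a, b, s_1, …, s_r) ∈ ℂ^(2+r)` with
`4 a³ + 27 b² ≠ 0`, and the fibre at `s` is the `q`-th power of the elliptic curve
`y² = x³ + a x + b` (`curve`). By restriction one gets the `q`-th fibre power `𝒜` of any elliptic scheme
over any affine variety. A point `(P_1, …, P_q)` of the fibre at `s` has the coordinates
`(a, b, s_1, …, s_r, x(P_1), …, x(P_q))` (`point`); they determine it up to the signs of the `P_l`.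

**Families.** Let `F` be a finite system of polynomials in these `2 + r + q` coordinates and `N`
auxiliary coordinates, with the exponents `supp j` and the coefficients `c j β`, which are polynomials in
`1 + k` variables `t = (t_0; t_1, …, t_k)` with integral coefficients (`k` is called `s` in the theorem).
For `t ∈ ℤ^(1+k)` the member `X_t` (`OnX`) is the set of the points of `𝒜` with all `P_l` different from
the origin for which there is a `y ∈ ℂ^N` such that all polynomials of the system, with the coefficients
evaluated at `t`, vanish at `(a, b, s, x(P), y)`. So `(X_t)` can be any family of subvarieties of `𝒜`, stable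
under the signs of the `P_l`, minus the zero sections, or of images of varieties, which depends
algebraically on `1 + k` parameters.

**Tropicalizations at hyperplanes.** Let `h_1, …, h_M` be polynomials `a_0 t_0 + … + a_k t_k + a'` of degree
one with integral coefficients and `a_0 ≠ 0` (`IsLin`). Suppose that each coefficient is
`c = h_l ^ e_l(c) · g`, where `g` has no common factor of positive degree in `t_0` with `h_l` (`HasOrd`,
`CoprimeTo`; each `c ≠ 0` has such an order `e_l(c)`, if `a_0, …, a_k, a'` have no common divisor). The
tropicalization along `h_l` is the set of the points `w` of `(ℚ ∪ {∞})^(2+r+q+N)` such that for every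
polynomial of the system the minimum of the numbers `e_l (coefficient) + β · w` is attained at two
different exponents or is infinite (`TropAt`).

**The condition** (`GenericP`). Let `m` be an integer, the dimension of the `X_t`. For `ρ ≥ 0` a point
`w` is called `ρ`-independent (`Independent`) if there are a set `J` of more than `q - ρ` indices and a
rational number `μ` with `2 μ ≤ w(a)`, `3 μ ≤ w(b)` and `w(x_j) + 1/2 < μ` for `j ∈ J`, and
`w(x_i) - w(x_j)` is not an integer for different `i, j ∈ J`. The condition is: for every set `T` of
coordinates (of the base or abscissas) and every `ρ ≥ 0` with `|T| + ρ = m + 1` there are an `l` and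
rational numbers `τ_i`, `i ∈ T`, such that every point `w` of the tropicalization along `h_l` with
`w_i = τ_i` for `i ∈ T` is `ρ`-independent.

**Theorem.** Suppose that the condition is satisfied and let `ε > 0`. Then for all `B ≥ 1` the member
`X_t` has no atypical intersection with algebraic subgroups of the fibres, for all but at most
`C · B ^ (k + 1/2 + ε)` of the about `(2 B)^(1 + k)` integral parameters `t` with all `|t_i| ≤ B`: for
every `ρ` every irreducible constructible subset of `X_t ∩ 𝒜^[≥ρ]` has dimension at most `m - ρ`, and the
points of `X_t ∩ 𝒜^[≥ρ]` have transcendence degree at most `m - ρ` over `ℚ` (`NoAtypicalP`). In particular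
`X_t ∩ 𝒜^[>m]` is empty, as in Pink's conjecture, and (`ρ = 1`) no component of dimension `m` of `X_t` is
contained in a strict group subscheme.

The algebraic subgroups of the fibres are given up to torsion by relations `∑ c_l (P_l) = 0` with
endomorphisms `c_l` of the curve as coefficients, also for curves with complex multiplication
(`InSubgroup`, a definition of the starting file `RandomMultisections`).

Our file `TropicalFamilies` is about one-parameter families and degenerations at points; here the base
is the affine space of any dimension and the degenerations are along hyperplanes. For one parameter the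
bound of `TropicalFamilies` is the better one, and it admits algebraic coefficients and rational and
transcendental parameters; so neither theorem contains the other.

The proof: the criterion `TropicalLocalCriterion` has to be satisfied with primes `p_l` which divide
`h_l(t)` exactly once and do not divide the `g(t)`. For fixed `t_1, …, t_k` outside a hypersurface `R = 0`
the numbers `h_l(t)` for which there is no such large prime are products of a number composed of small
primes and primes dividing `R(t_1, …, t_k)`, of which there are `O(B^ε)`, and of a number which no large
prime divides exactly once, of which there are `O(√B)`.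
-/

set_option autoImplicit false

namespace Pool.Agent.Results.MP_28d749_ag.ManyParameters

open Pool.Agent.R424.MP Pool.Agent.R424.PT
open Pool.Agent.Results.MP_28d749_ag.RandomMultisections (curve)

/-- **Pink's conjecture for almost all members of families with several integral parameters** of
subvarieties of the powers of elliptic schemes, from the tropicalizations of the family along finitely
many hyperplanes of the space of parameters. -/
theorem result (κ : Type) [Finite κ] (s r q N m M : ℕ)
    (supp : κ → Finset ((Coord r q ⊕ Fin N) →₀ ℕ))
    (c : κ → ((Coord r q ⊕ Fin N) →₀ ℕ) → Polynomial (MvPolynomial (Fin s) ℤ))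
    (h : Fin M → Polynomial (MvPolynomial (Fin s) ℤ)) (hlin : ∀ l, IsLin (h l))
    (e : Fin M → κ → ((Coord r q ⊕ Fin N) →₀ ℕ) → ℕ)
    (he : ∀ l j, ∀ β ∈ supp j, HasOrd (h l) (c j β) (e l j β)) (hgen : GenericP m supp e)
    (ε : ℝ) (hε : 0 < ε) :
    ∃ C : ℝ, ∀ B : ℕ, 1 ≤ B →
      ({z : ℤ × (Fin s → ℤ) | |z.1| ≤ B ∧ (∀ i, |z.2 i| ≤ B) ∧
        ¬ NoAtypicalP m (OnX supp (fun j β => ((ev z.1 z.2 (c j β) : ℤ) : ℂ)) :
          ∀ x : Fin 2 ⊕ Fin r → ℂ, (Fin q → (curve (x (Sum.inl 0)) (x (Sum.inl 1))).Point) →
            Prop)}.ncard : ℝ) ≤ C * (B : ℝ) ^ ((s : ℝ) + 1 / 2 + ε) :=
  manyPink supp c h hlin e he hgen ε hε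

end Pool.Agent.Results.MP_28d749_ag.ManyParameters
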