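import Pool.Agent.R349.Pink

/-!
# Sections of the powers of abelian schemes and the algebraic subgroups of the fibres: small balls of the base

Let `A → U` be an abelian scheme over an open subset of an affine space, with sections `σ κ`, `κ` in `R`. In Pink's
conjecture for the image of the section `(σ κ)` of the power `A ^ R` we ask at which points `s` the point `(σ κ (s))` lies
in a proper algebraic subgroup of `A_s ^ R` (of codimension larger than the dimension of the base). Each proper algebraic
subgroup of `A_s ^ R` lies in the kernel of a nonzero homomorphism `(φ κ) : A_s ^ R → A_s`. We show that in each ball of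
radius `T ^ (-η)`, for every `η > 0`, the points of height at most `T` and degree at most `k` at which such a homomorphism,
with matrices on the homology with entries at most `T ^ k`, vanishes at `(σ κ (s))` lie on a number of hypersurfaces, of a
degree, which do not depend on `T`, the ball and the number field.

The definitions (`Pool.Agent.R349.MVB`, `Pool.Agent.Y890.MV`, `Pool.Agent.Y124`, `Pool.Agent.Y120`):
* `Sect X G H R` : analytic data of the abelian scheme over the open set `U` of `ℂ ^ X`, of relative dimension `|G|`, and of
  the sections: the periods `ω ρ j`, which generate lattices of rank `|H|`, the logarithms `l ρ κ` of the sections, the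
  monodromy `Γ`, whose elements `γ` act by `ω ↦ ω γ.1`, `l ↦ l + ω γ.2` and preserve all polynomial relations over `ℂ[x]`
  between these functions on `U`; `RegularM`: the functions in the field generated by the coordinates, `ω` and `l` which
  are algebraic over `ℂ(x)` are rational (this holds after a finite cover of the base); `indep`: no rational combination
  of the sections, except `0`, has a cocycle `γ.2 a` which is a coboundary `γ.1 m - m`;
* `Pk X G H R` : in addition the columns of `ω(x)` generate `ℂ ^ G` over the real numbers, the matrices `γ.1` are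
  invertible, and (`scal`, large monodromy) an integral matrix which is the matrix of an endomorphism for the periods
  `ω(x) γ.1` for all `γ` is a scalar; for instance if the matrices `γ.1` are Zariski dense in the symplectic group;
* `S.Lat x` : the lattice, `S.val κ x` : the value of the section `κ` at `x`, a point of the torus `ℂ ^ G / S.Lat x`;
* `S.Sub k K io T` : the points over `K` of height at most `T` in `InnerM S.U k` at which there are integral matrices `M κ`,
  with entries at most `T ^ k`, not all `0`, and complex matrices `Φ κ` with `Φ κ ω = ω M κ` (so `Φ κ` induces an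
  endomorphism `φ κ` of the torus) and `∑ Φ κ l κ` in the lattice, that is `∑ φ κ (σ κ) = 0`;
* `Y120.HtLe K T a` : `a` is a quotient of integers of `K` all of whose conjugates are at most `T`;
* `InnerM U k` : the points of norm at most `k` at distance at least `1 / k` from the complement of `U`;
* `Cov D m S` : `S` is covered by at most `m` hypersurfaces of degree at most `D`.
-/

set_option autoImplicit false

namespace Pool.Agent.Results.MP_28d749_ag.SubgroupsInSmallBalls

open Pool.Agent Pool.Agent.Y890.MV Pool.Agent.R349.MVB

/-- (1) Let `S` be an abelian scheme with sections and large monodromy as above. For all `k` and `η > 0` there are `C` and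
`T₀` such that for all number fields `K` of degree at most `k`, embedded in `ℂ`, all `T ≥ T₀` and all points `t₀` of
`ℂ ^ X`: the points in `S.Sub k K io T` at distance at most `T ^ (-η)` from `t₀` lie on at most `C` hypersurfaces of degree
at most `C`; hence for all finite subsets `B j` of `K` at most `C ∑_j ∏_{i ≠ j} |B i|` of them have coordinates in the sets
`B j`, and at most `C` if there is one parameter.
(2) For every abelian scheme with sections, without the assumptions on the size of the monodromy, the same is true for the
points at which `∑ a κ σ κ = 0` for integers `a κ`, not all `0`, of absolute value at most `T ^ k`. -/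
theorem result :
    (∀ (X G H R : Type) [Fintype X] [DecidableEq X] [Nonempty X] [Fintype G] [DecidableEq G] [Fintype H]
      [DecidableEq H] [Fintype R] [DecidableEq R] (S : Pk X G H R) (k : ℕ) (η : ℝ), 0 < η →
      ∃ (C : ℕ) (T₀ : ℝ), ∀ (K : Type) [Field K] [NumberField K], Module.finrank ℚ K ≤ k →
        ∀ (io : K →+* ℂ) (T : ℝ), T₀ ≤ T → ∀ t₀ : X → ℂ,
          Y124.Cov C C {t | ‖t - t₀‖ ≤ T ^ (-η) ∧ ∃ s ∈ S.Sub k K io T, t = fun j => io (s j)} ∧
          ∀ (B : X → Finset K) (E : Finset (X → K)), (∀ s ∈ E, (∀ j, s j ∈ B j) ∧ s ∈ S.Sub k K io T ∧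
              ‖(fun j => io (s j)) - t₀‖ ≤ T ^ (-η)) →
            E.card ≤ C * ∑ j, ∏ i ∈ Finset.univ.erase j, (B i).card) ∧
    ∀ (X G H R : Type) [Fintype X] [DecidableEq X] [Nonempty X] [Fintype G] [DecidableEq G] [Fintype H]
      [DecidableEq H] [Fintype R] [DecidableEq R] (S : Sect X G H R) (k : ℕ) (η : ℝ), 0 < η →
      ∃ (C : ℕ) (T₀ : ℝ), ∀ (K : Type) [Field K] [NumberField K], Module.finrank ℚ K ≤ k →
        ∀ (io : K →+* ℂ) (T : ℝ), T₀ ≤ T → ∀ t₀ : X → ℂ,
          Y124.Cov C C {t | ‖t - t₀‖ ≤ T ^ (-η) ∧ ∃ s : X → K, (∀ j, Y120.HtLe K T (s j)) ∧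
            (t = fun j => io (s j)) ∧ t ∈ InnerM S.U k ∧ ∃ a : R → ℤ, a ≠ 0 ∧ (∀ κ, |(a κ : ℝ)| ≤ T ^ k) ∧
              ∑ κ, a κ • S.val κ t = 0} := by
  refine ⟨?_, ?_⟩
  · intro X G H R _ _ _ _ _ _ _ _ _ S k η hη
    obtain ⟨C, T₀, H0⟩ := S.ball k η hη
    refine ⟨C + C * C, T₀, fun K _ _ hK io T hT t₀ => ?_⟩
    have h2 := H0 K hK io T hT t₀
    refine ⟨h2.mono (by omega) (by omega) (Set.Subset.refl _), fun B E hE => ?_⟩
    refine (R349.MVB.cov_prod io B _ h2 E fun e he => ?_).trans (Nat.mul_le_mul_right _ (by omega))
    obtain ⟨h3, h4, h5⟩ := hE e he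
    exact ⟨h3, h5, e, h4, rfl⟩
  · intro X G H R _ _ _ _ _ _ _ _ _ S k η hη
    obtain ⟨C, T₀, H0⟩ := S.ball k η hη
    refine ⟨C, T₀, fun K _ _ hK io T hT t₀ => ?_⟩
    refine (H0 K hK io T hT t₀).mono le_rfl le_rfl ?_
    rintro t ⟨h1, s, h2, rfl, h3, a, ha0, ha, h4⟩
    obtain ⟨m, hm⟩ := S.val_eq _ a h4
    exact ⟨h1, s, ⟨h2, h3, a, m, ha0, ha, hm⟩, rfl⟩

end Pool.Agent.Results.MP_28d749_ag.SubgroupsInSmallBalls
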