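import Pool.Agent.R424.PT.Fam

/-!
# MP_28d749_ag: Pink's conjecture for almost all members of arbitrary one-parameter families of
subvarieties of the powers of elliptic schemes, from their tropicalizations

**The abelian scheme.** The base is the space of all `s = (a, b, s_1, …, s_r) ∈ ℂ^(2+r)` with
`4 a³ + 27 b² ≠ 0`, and the fibre at `s` is the `q`-th power of the elliptic curve
`y² = x³ + a x + b` (`curve`). By restriction one gets the `q`-th fibre power `𝒜` of any elliptic scheme
over any affine variety. A point `(P_1, …, P_q)` of the fibre at `s` has the coordinates
`(a, b, s_1, …, s_r, x(P_1), …, x(P_q))` (`point`); they determine it up to the signs of the `P_l`.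

**Families.** Let `F` be an arbitrary finite system of polynomials in these `2 + r + q` coordinates and
`N` auxiliary coordinates, with coefficients in `ℚ̄[t]`. For `t ∈ ℂ` the member `X_t` (`MemberP`) is the
set of the points of `𝒜` with all `P_l` different from the origin for which there is a `y ∈ ℂ^N` such
that all polynomials of the system, with the coefficients evaluated at `t`, vanish at
`(a, b, s, x(P), y)`. So `(X_t)` can be any one-parameter family of subvarieties of `𝒜` which are stable
under the signs of the `P_l`, minus the zero sections, or of images of varieties.

**Tropicalization.** Let `D` be a finite set of rational numbers. For `α ∈ D` the tropicalization at `α`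
is the set of the points `w` of `(ℚ ∪ {∞})^(2+r+q+N)` such that for every polynomial of the system the
minimum of the numbers `ord_α (coefficient) + β · w`, over the exponents `β` of its monomials, is
attained at two different exponents or is infinite (`TropAt`, `orders`).

**The condition** (`GenericP`). Let `m` be an integer, the dimension of the `X_t`. For `ρ ≥ 0` a point
`w` is called `ρ`-independent (`Independent`) if there are a set `J` of more than `q - ρ` indices and a
rational number `μ` with `2 μ ≤ w(a)`, `3 μ ≤ w(b)` and `w(x_j) + 1/2 < μ` for `j ∈ J`, and
`w(x_i) - w(x_j)` is not an integer for different `i, j ∈ J`. The condition is: for every set `T` of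
coordinates (of the base or abscissas) and every `ρ ≥ 0` with `|T| + ρ = m + 1` there are an `α ∈ D` and
rational numbers `τ_i`, `i ∈ T`, such that every point `w` of the tropicalization at `α` with
`w_i = τ_i` for `i ∈ T` is `ρ`-independent.

**Theorem.** Suppose that the condition is satisfied.
1. For all transcendental numbers `t` and
2. for all rational numbers `t = u / v` in lowest terms with few exceptions, namely for all `B ≥ 1` and
   `v ≤ B` for all but at most `C √B` of the integers `u` with `|u| ≤ B` prime to `v`, with a constant
   `C` which depends only on the family (`v = 1`: all but `C √B` of the integers in `[-B, B]`),
the member `X_t` has no atypical intersection with algebraic subgroups of the fibres: for every `ρ`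
every irreducible constructible subset of `X_t ∩ 𝒜^[≥ρ]` has dimension at most `m - ρ`, and the points
of `X_t ∩ 𝒜^[≥ρ]` have transcendence degree at most `m - ρ` over `ℚ`, or in 1. over any countable field
containing `t` (`NoAtypicalP`, `NoAtypicalK`). In particular `X_t ∩ 𝒜^[>m]` is empty, as in Pink's
conjecture, and (`ρ = 1`) no component of dimension `m` of `X_t` is contained in a strict group
subscheme.

The algebraic subgroups of the fibres are given up to torsion by relations `∑ c_l (P_l) = 0` with
endomorphisms `c_l` of the curve as coefficients, also for curves with complex multiplication
(`InSubgroup`, a definition of the starting file `RandomMultisections`).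

The starting files `RandomMultisections` and `RandomPullbacks` are about a positive proportion of
systems of special forms with many parameters, all the coefficients. Our file `TropicalLocalCriterion`
is about a single system and residue classes of coefficients. Here all but a sparse set of the members
of arbitrary one-parameter families are treated. In distinction to the similar theorems for
`Y(1)^n × G_m^k` (`MP_dd1803_nt.TropicalCriterion`) parameters which are near to `α` to a high order are
not admitted, because the values of the endomorphisms at a place above `p` are multiples of `v(p)/2`;
so the number of the exceptions is bounded by the number of the integers which are divisible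
exactly once by no large prime number, `C √B`.

The proof: let `t = u / v`. For all but `C √B` of the `u` there is for every `α ∈ D` a prime number `p`,
larger than a bound which depends only on the family, which divides the numerator of `t - α` exactly
once. Then all the coefficients have the order `ord_α` of the polynomial at all places of `ℂ` above
`p`. There is such a place at which given algebraically independent coordinates of a point have the
values `τ_i`, and all of whose values are rational. The values of the coordinates give a point of the
tropicalization, and the points `P_j`, `j ∈ J`, are near to the origin with different values modulo the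
values of the endomorphisms, hence linearly independent over the endomorphism ring. For transcendental
`t` one chooses a place at which `t - α` has the value of a large prime number `p`.
-/

set_option autoImplicit false

namespace Pool.Agent.Results.MP_28d749_ag.TropicalFamilies

open MvPolynomial Pool.Agent.R424.PT
open Pool.Agent.Results.MP_28d749_ag.RandomMultisections (curve)

/-- **Pink's conjecture for almost all members of one-parameter families** of subvarieties of the
powers of elliptic schemes, from the tropicalizations of the families at finitely many rational
parameters. -/
theorem result (κ : Type) [Finite κ] (r q N m : ℕ)
    (F : κ → MvPolynomial (Coord r q ⊕ Fin N) (Polynomial (algebraicClosure ℚ ℂ)))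
    (D : Finset ℚ) (hgen : GenericP m (fun j => (F j).support) (orders F D)) :
    (∀ t : ℂ, Transcendental ℚ t → ∀ (K : Subfield ℂ) [Countable K], t ∈ K →
      NoAtypicalK K m (MemberP F t : ∀ s : Fin 2 ⊕ Fin r → ℂ,
        (Fin q → (curve (s (Sum.inl 0)) (s (Sum.inl 1))).Point) → Prop)) ∧
    ∃ C : ℝ, ∀ B : ℕ, 1 ≤ B → ∀ v : ℕ, 1 ≤ v → v ≤ B →
      ({u : ℤ | |u| ≤ B ∧ IsCoprime u (v : ℤ) ∧ ¬ NoAtypicalP m (MemberP F ((u : ℂ) / v) :
        ∀ s : Fin 2 ⊕ Fin r → ℂ, (Fin q → (curve (s (Sum.inl 0)) (s (Sum.inl 1))).Point) →
          Prop)}.ncard : ℝ) ≤ C * Real.sqrt B :=
  ⟨fun t ht K _ htK => transP F D m hgen t ht K htK, ratP F D m hgen⟩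

end Pool.Agent.Results.MP_28d749_ag.TropicalFamilies
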