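import Pool.Agent.R424.PT.Res

/-!
# MP_28d749_ag: a tropical local criterion for Pink's conjecture for arbitrary subvarieties of the powers
of elliptic schemes

**The abelian scheme.** The base is the space of all `s = (a, b, s_1, …, s_r) ∈ ℂ^(2+r)` with
`4 a³ + 27 b² ≠ 0`, and the fibre at `s` is the `q`-th power of the elliptic curve
`y² = x³ + a x + b` (`curve`). By restriction one gets the `q`-th fibre power `𝒜` of any elliptic scheme
over any affine variety (the coefficients of the curve are taken as two of the coordinates of the
base). A point `(P_1, …, P_q)` of the fibre at `s` has the coordinates
`(a, b, s_1, …, s_r, x(P_1), …, x(P_q))` (`point`); they determine it up to the signs of the `P_l`.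

**Subvarieties.** Let `∑_β c j β z^β`, `j ∈ κ`, be an arbitrary finite system of polynomials in these
`2 + r + q` coordinates and `N` auxiliary coordinates, with complex coefficients and exponents `β` in
finite sets `supp j`. Let `X` (`OnX`) be the set of the points of `𝒜` with all `P_l` different from the
origin for which there is a `y ∈ ℂ^N` such that all polynomials of the system vanish at
`(a, b, s, x(P), y)`. So `X` can be any subvariety of `𝒜` which is stable under the signs of the
`P_l` (the conjecture is not changed if one takes the union of the conjugates of a subvariety under
the signs), or the image of any variety, minus the zero sections.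

**Places.** Let `p_l` be prime numbers (`l ∈ I`) such that the coefficients have orders at all places
above `p_l`: `v(c j β) = e l j β v(p_l)` for all valuations `v` of `ℂ` with `v(p_l) > 0` (`OrdAt`). For
instance the coefficients are integers of these orders at `p_l`, or such integers multiplied by
algebraic numbers which are units above `p_l`. The tropicalization at `l` is the set of the points `w`
of `(ℚ ∪ {∞})^(2+r+q+N)` such that for every polynomial of the system the minimum of the numbers
`e l j β + β · w` is attained at two different exponents or is infinite (`TropAt`).

**The condition** (`GenericP`). Let `m` be an integer, the dimension of `X`. For `ρ ≥ 0` a point `w`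
is called `ρ`-independent (`Independent`) if there are a set `J` of more than `q - ρ` indices and a
rational number `μ` with `2 μ ≤ w(a)`, `3 μ ≤ w(b)` and `w(x_j) + 1/2 < μ` for `j ∈ J`, and
`w(x_i) - w(x_j)` is not an integer for different `i, j ∈ J`. The condition is: for every set `T` of
coordinates (of the base or abscissas) and every `ρ ≥ 0` with `|T| + ρ = m + 1` there are an `l` and
rational numbers `τ_i`, `i ∈ T`, such that every point `w` of the tropicalization at `l` with
`w_i = τ_i` for `i ∈ T` is `ρ`-independent. (For `ρ = 0` no `w` is `ρ`-independent, so this says that
`m + 1` coordinates cannot have the values `τ_i`.)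

**Theorem.**
1. If the condition is satisfied then `X` has no atypical intersection with algebraic subgroups of
   the fibres (`NoAtypicalP`): for every `ρ` every irreducible constructible subset of `X ∩ 𝒜^[≥ρ]` has
   dimension at most `m - ρ`, and the points of `X ∩ 𝒜^[≥ρ]` have transcendence degree at most `m - ρ`
   over `ℚ`. In particular `X ∩ 𝒜^[>m]` is empty, as in Pink's conjecture, and (`ρ = 1`) no component of
   dimension `m` of `X` is contained in a strict group subscheme.
2. For given finite sets `supp j` and given orders `e l j β` which satisfy the condition, and for
   every `Q₀ > 0`, there is a residue class of integral coefficient vectors modulo some `Q > 0` prime to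
   `Q₀` such that this is true for all systems with the coefficients in the residue class. (So these
   systems are a positive proportion of all systems of polynomials with integral coefficients and the
   given exponents, and of those in any residue class modulo `Q₀`.)

The algebraic subgroups of the fibres are given up to torsion by relations `∑ c_l (P_l) = 0` with
endomorphisms `c_l` of the curve as coefficients, also for curves with complex multiplication
(`InSubgroup`, a definition of the starting file `RandomMultisections`).

The starting files `RandomMultisections` and `RandomPullbacks` treat a positive proportion of
systems of a special form (a power of an elliptic scheme over a projective base; multisections given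
by one equation for each `P_l`, with a common field of coefficients, or pull-backs of a fixed variety
under such maps), for which the places are constructed. Here the system is arbitrary and the
condition is a condition on its tropicalizations at some places. The `q` points can be tied together
by the equations, auxiliary variables and redundant equations are allowed, and different places can be
used for different sets `T` and codimensions `ρ`.

The proof: let `(P_1, …, P_q)` be a point of `X` in an algebraic subgroup of codimension `ρ`, with
algebraically independent coordinates `z_i`, `i ∈ T`. There is a valuation of `ℂ` above `p_l`, all of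
whose values are rational multiples of `v(p_l)`, with `v(z_i) = τ_i v(p_l)` (an extension of a Gauss
valuation). The values of the coordinates give a point of the tropicalization. After a scaling by `μ`
the points `P_j`, `j ∈ J`, are in the kernel of the reduction of the (integral, not necessarily smooth)
model, deep enough for the logarithm, with values which are different modulo the values of the
endomorphisms. So there is no relation between the `P_j`, `j ∈ J`; but the module of the relations has
rank `ρ > q - |J|` and contains relations of this kind (`rel_placeE` of a starting file).
-/

set_option autoImplicit false

namespace Pool.Agent.Results.MP_28d749_ag.TropicalLocalCriterion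

open Pool.Agent.R424.PT

/-- **The tropical local criterion** for Pink's conjecture in the powers of elliptic schemes, and the
systems of polynomials with integral coefficients in a residue class. -/
theorem result (κ : Type) [Finite κ] (r q N m : ℕ)
    (supp : κ → Finset ((Coord r q ⊕ Fin N) →₀ ℕ)) :
    (∀ (I : Type) (c : κ → ((Coord r q ⊕ Fin N) →₀ ℕ) → ℂ)
      (e : I → κ → ((Coord r q ⊕ Fin N) →₀ ℕ) → ℕ), GenericP m supp e →
      ∀ p : I → ℕ, (∀ l, (p l).Prime) →
      (∀ l j, ∀ β ∈ supp j, OrdAt (p l) (c j β) (e l j β)) → NoAtypicalP m (OnX supp c)) ∧
    ∀ (M : ℕ) (e : Fin M → κ → ((Coord r q ⊕ Fin N) →₀ ℕ) → ℕ), GenericP m supp e →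
      ∀ Q₀ : ℕ, 0 < Q₀ → ∃ Q : ℕ, 0 < Q ∧ Q.Coprime Q₀ ∧
        ∃ c₀ : κ → ((Coord r q ⊕ Fin N) →₀ ℕ) → ℤ, ∀ c : κ → ((Coord r q ⊕ Fin N) →₀ ℕ) → ℤ,
          (∀ j, ∀ β ∈ supp j, (Q : ℤ) ∣ c j β - c₀ j β) →
          NoAtypicalP m (OnX supp fun j β => ((c j β : ℤ) : ℂ)) :=
  ⟨fun _ c e hgen p hp he => coreP m supp c e hgen p hp he,
    fun _ e hgen Q₀ hQ₀ => residueP supp e hgen Q₀ hQ₀⟩

end Pool.Agent.Results.MP_28d749_ag.TropicalLocalCriterion
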